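import Pool.Agent.Q208.F.CovSplitClassical

/-!
# `max{s, cov(M)} < ss_cc` is consistent

Adding Cohen reals and then random reals forces `cov(M) = s = ℵ₁`, while `ss_cc` is as large as
wanted.
-/

open Cardinal Q208.F

namespace Pool.Agent.Results.MP_d37bef_lc.MaxBelowSubseries

/-- `ss_cc ≤ |W|` implies `ss_c ≤ |W|`, also in the sense of forcing. -/
theorem sscLe_of_ssccLe {P : Type} [Preorder P] {W : Type} {p : P}
    (h : p ∈ (forcing P).ssccLe W) : p ∈ (forcing P).sscLe W := by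
  refine mem_ex.2 fun q hq => ?_
  obtain ⟨r, hr, X, h1, h2⟩ := mem_ex.1 h q hq
  refine ⟨r, hr, X, h1, fun a => mem_imp.2 fun s hs ha => ?_⟩
  obtain ⟨t, ht, h3⟩ := mem_imp.1 (h2 a) s hs ha
  refine ⟨t, ht, mem_ex.2 fun u hu => ?_⟩
  obtain ⟨v, hv, k, h4⟩ := mem_ex.1 h3 u hu
  exact ⟨v, hv, k, h4.1⟩

/-- The sentences `covMLe K`, `splitLe K` and `ssccLe K` say, with the classical truth values, that
`cov(M) ≤ |K|`, `s ≤ |K|` and `ss_cc ≤ |K|`. For every cardinal `κ ≥ ℵ₁` there is a set `P` of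
forcing conditions with the countable chain condition, so that all uncountable cardinals are
preserved, such that every condition forces `cov(M) ≤ ℵ₁`, `s ≤ ℵ₁` and that `ss_cc ≤ κ` fails. -/
theorem result :
    ((∀ K : Type, classical.covMLe K ↔ covM ≤ #K) ∧
      (∀ K : Type, classical.splitLe K ↔ splitNumber ≤ #K) ∧
      (∀ K : Type, classical.ssccLe K ↔ sscc ≤ #K)) ∧
    ∀ κ : Cardinal.{0}, ℵ₁ ≤ κ → ∃ (P : Type) (_ : PartialOrder P),
      Nonempty P ∧ CCC P ∧ CardinalsPreserved P ∧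
      (∀ W : Type, #W = ℵ₁ → ∀ p : P,
        p ∈ (forcing P).covMLe W ∧ p ∈ (forcing P).splitLe W) ∧
      (∀ W : Type, #W ≤ κ → ∀ p : P, p ∈ (forcing P).neg ((forcing P).ssccLe W)) := by
  refine ⟨⟨covMLe_iff, splitLe_iff, ssccLe_iff⟩, fun κ hκ => ?_⟩
  let L : Type := (Order.succ κ).out
  have hL : #L = Order.succ κ := Cardinal.mk_out _
  have hL1 : ℵ₁ < #L := by rw [hL]; exact Order.lt_succ_of_le hκ
  have hL0 : ℵ₀ < #L := Cardinal.aleph0_lt_aleph_one.trans hL1
  refine ⟨CR L L, inferInstance, ⟨Cond.top⟩, ccc_Cond, cardinalsPreserved ccc_Cond,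
    fun W hW p => ?_, fun W hW p => ?_⟩
  · have hle : #W ≤ #L := by rw [hW]; exact hL1.le
    obtain ⟨e⟩ := hle
    have hunc : ¬ Countable W := fun hc => by
      have h1 := Cardinal.mk_le_aleph0_iff.mpr hc
      rw [hW] at h1
      exact absurd Cardinal.aleph0_lt_aleph_one (not_lt.mpr h1)
    exact ⟨mem_covMLe e hunc p, mem_splitLe e hunc p⟩
  · have hlt : #W < #L := by rw [hL]; exact Order.lt_succ_of_le hW
    intro q hq hqm
    exact not_sscLe hlt hL0 hlt hL0 p q hq (sscLe_of_ssccLe hqm)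

end Pool.Agent.Results.MP_d37bef_lc.MaxBelowSubseries
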